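import Mathlib
import Pool.Agent.V5helper35.Iso.Fin

set_option autoImplicit false

/-! The isomorphism problem for self-similar groups generated by finite invertible automata is
undecidable, even when one of the two automata is fixed and the alphabet has 16 letters. -/

namespace Pool.Agent.Results.MP_56d946_al.IsoUndecidable

open Pool.Agent.V5helper35.Iso

theorem result :
    (¬ ∃ f : (ℕ × List (List (ℕ × ℕ))) × (ℕ × List (List (ℕ × ℕ))) →. Bool, Partrec f ∧
      ∀ A B : Automaton, ∃ b : Bool, f (A.code, B.code) = Part.some b ∧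
        (b = true ↔ Nonempty (A.group ≃* B.group))) ∧
    (∃ B : Automaton, B.n = 16 ∧
      ¬ ∃ f : ℕ × List (List (ℕ × ℕ)) →. Bool, Partrec f ∧
        ∀ A : Automaton, A.n = 16 →
          ∃ b : Bool, f A.code = Part.some b ∧ (b = true ↔ Nonempty (A.group ≃* B.group))) := by
  obtain ⟨B, hB, hmain⟩ := main
  refine ⟨?_, B, hB, hmain⟩
  rintro ⟨f, hf, hA⟩
  apply hmain
  refine ⟨fun c => f (c, B.code), ?_, fun A _ => hA A B⟩
  exact hf.comp (Computable.pair Computable.id (Computable.const _))

end Pool.Agent.Results.MP_56d946_al.IsoUndecidable
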